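import Pool.Agent.Lib.MP_63dc40_ag.Dim

set_option autoImplicit false

namespace Pool.Agent.H52.Fol

open MvPolynomial

/-- Maximal ideals of a polynomial ring over the complex numbers have full height. -/
theorem height_max_poly (s : ℕ) (m : Ideal (MvPolynomial (Fin s) ℂ)) [hm : m.IsMaximal] :
    (s : ℕ∞) ≤ m.height := by
  induction s with
  | zero => simp
  | succ s ih =>
    let e := (MvPolynomial.finSuccEquiv ℂ s).toRingEquiv
    let M : Ideal (Polynomial (MvPolynomial (Fin s) ℂ)) := m.map e
    have hM : M.IsMaximal := Ideal.map_isMaximal_of_equiv e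
    have h1 : M.height = m.height := e.height_map m
    let p : Ideal (MvPolynomial (Fin s) ℂ) := M.comap Polynomial.C
    have hp : p.IsMaximal := Polynomial.isMaximal_comap_C_of_isJacobsonRing M
    have : M.LiesOver p := ⟨rfl⟩
    have h2 := Polynomial.height_eq_height_add_one p M
    rw [← h1, h2]
    push_cast
    gcongr
    exact ih p

/-- In a complex affine domain every maximal ideal has height at least the Krull dimension. -/
theorem dim_le_height (B : Type) [CommRing B] [IsDomain B] [Algebra ℂ B]
    [Algebra.FiniteType ℂ B] (m : Ideal B) [hm : m.IsMaximal] :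
    ringKrullDim B ≤ (m.height : WithBot ℕ∞) := by
  obtain ⟨s, g, hinj, hint⟩ := exists_integral_inj_algHom_of_fg ℂ B
  let _ : Algebra (MvPolynomial (Fin s) ℂ) B := g.toRingHom.toAlgebra
  have : Algebra.IsIntegral (MvPolynomial (Fin s) ℂ) B := ⟨hint⟩
  have : FaithfulSMul (MvPolynomial (Fin s) ℂ) B :=
    (faithfulSMul_iff_algebraMap_injective _ _).2 hinj
  have : IsNoetherianRing B := Algebra.FiniteType.isNoetherianRing ℂ B
  let p : Ideal (MvPolynomial (Fin s) ℂ) := m.comap (algebraMap _ B)
  have hp : p.IsMaximal := Ideal.isMaximal_comap_of_isIntegral_of_isMaximal m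
  have : m.LiesOver p := ⟨rfl⟩
  have h1 := Ideal.height_eq_height_add_of_liesOver_of_hasGoingDown p m
  have h2 : (s : ℕ∞) ≤ m.height := by
    rw [h1]
    exact (height_max_poly s p).trans le_self_add
  have h3 : ringKrullDim (MvPolynomial (Fin s) ℂ) = (s : WithBot ℕ∞) := by
    rw [MvPolynomial.ringKrullDim_of_isNoetherianRing, ringKrullDim_eq_zero_of_field]
    simp
  refine (Pool.Agent.Lib.MP_63dc40_ag.ringKrullDim_le_of_isIntegral
    (MvPolynomial (Fin s) ℂ) B).trans ?_
  rw [h3]
  exact_mod_cast h2

/-- An irreducible closed subset through a closed point of a complex affine scheme of finite type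
has dimension at most the dimension of the local ring at the point. -/
theorem topDim_le (A : Type) [CommRing A] [Algebra ℂ A] [Algebra.FiniteType ℂ A]
    (P : PrimeSpectrum A) (hP : P.asIdeal.IsMaximal) (Z : Set (PrimeSpectrum A))
    (hZ : Z ∈ irreducibleComponents (PrimeSpectrum A)) (hPZ : P ∈ Z) :
    topologicalKrullDim Z ≤ ringKrullDim (Localization.AtPrime P.asIdeal) := by
  have hcl : IsClosed Z := isClosed_of_mem_irreducibleComponents Z hZ
  let q : Ideal A := PrimeSpectrum.vanishingIdeal Z
  have hq : q.IsPrime := PrimeSpectrum.isIrreducible_iff_vanishingIdeal_isPrime.1 hZ.1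
  have hZq : PrimeSpectrum.zeroLocus (q : Set A) = Z := by
    rw [PrimeSpectrum.zeroLocus_vanishingIdeal_eq_closure, hcl.closure_eq]
  have hqP : q ≤ P.asIdeal := by
    rw [← hZq] at hPZ
    exact hPZ
  have hemb := PrimeSpectrum.isClosedEmbedding_comap_of_surjective (A ⧸ q) (Ideal.Quotient.mk q)
    Ideal.Quotient.mk_surjective
  have hrange : Set.range (PrimeSpectrum.comap (Ideal.Quotient.mk q)) = Z := by
    rw [range_comap_of_surjective _ _ Ideal.Quotient.mk_surjective, Ideal.mk_ker,
      hZq]
  have h1 : topologicalKrullDim Z ≤ ringKrullDim (A ⧸ q) := by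
    rw [← PrimeSpectrum.topologicalKrullDim_eq_ringKrullDim, ← hrange]
    exact hemb.isEmbedding.toHomeomorph.symm.isInducing.topologicalKrullDim_le
  let m : Ideal (A ⧸ q) := P.asIdeal.map (Ideal.Quotient.mk q)
  have hm : m.IsMaximal :=
    Ideal.IsMaximal.map_of_surjective_of_ker_le Ideal.Quotient.mk_surjective
      (by rwa [Ideal.mk_ker])
  have h2 := dim_le_height (A ⧸ q) m
  have h3 : m.height ≤ P.asIdeal.height := by
    have hc : m.comap (Ideal.Quotient.mk q) = P.asIdeal := by
      rw [Ideal.comap_map_of_surjective _ Ideal.Quotient.mk_surjective,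
        ← RingHom.ker_eq_comap_bot, Ideal.mk_ker, sup_eq_left.2 hqP]
    have h4 := PrimeSpectrum.height_eq_orderHeight (⟨m, hm.isPrime⟩ : PrimeSpectrum (A ⧸ q))
    have h5 := PrimeSpectrum.height_eq_orderHeight P
    have h6 := Order.height_le_height_apply_of_strictMono
      (PrimeSpectrum.comap (Ideal.Quotient.mk q))
      (RingHom.strictMono_comap_of_surjective Ideal.Quotient.mk_surjective)
      (⟨m, hm.isPrime⟩ : PrimeSpectrum (A ⧸ q))
    have h7 : PrimeSpectrum.comap (Ideal.Quotient.mk q) (⟨m, hm.isPrime⟩ : PrimeSpectrum (A ⧸ q))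
        = P := PrimeSpectrum.ext hc
    rw [h7] at h6
    rw [h5]
    exact h4.le.trans h6
  rw [IsLocalization.AtPrime.ringKrullDim_eq_height P.asIdeal]
  exact h1.trans (h2.trans (by exact_mod_cast h3))

end Pool.Agent.H52.Fol
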